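import Pool.Agent.Q264.HM.Stm

/-!
# Project HM (helper264), job HOM: homomorphisms from submonoids and relations between words
-/

set_option autoImplicit false

namespace Pool.Agent.Q178.HM

open Pool.Agent.Q264.HM

theorem exists_list {H G : Type} [Group H] (L : List (H × G))
    (z : Submonoid.closure {h : H | ∃ p ∈ L, p.1 = h}) :
    ∃ u : List (H × G), (∀ p ∈ u, p ∈ L) ∧ (u.map Prod.fst).prod = (z : H) := by
  obtain ⟨z, hz⟩ := z
  induction hz using Submonoid.closure_induction with
  | mem x hx =>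
    obtain ⟨p, hp, rfl⟩ := hx
    exact ⟨[p], by simpa using hp, by simp⟩
  | one => exact ⟨[], by simp, by simp⟩
  | mul x y _ _ hx hy =>
    obtain ⟨u, hu, hu2⟩ := hx
    obtain ⟨v, hv, hv2⟩ := hy
    refine ⟨u ++ v, ?_, ?_⟩
    · intro p hp
      rcases List.mem_append.1 hp with h | h
      · exact hu p h
      · exact hv p h
    · rw [List.map_append, List.prod_append, hu2, hv2]

theorem value {H G : Type} [Group H] [Group G] (L : List (H × G))
    (Φ : Submonoid.closure {h : H | ∃ p ∈ L, p.1 = h} →* G)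
    (hΦ : ∀ p (hp : p ∈ L), Φ ⟨p.1, Submonoid.subset_closure ⟨p, hp, rfl⟩⟩ = p.2)
    (u : List (H × G)) (hu : ∀ p ∈ u, p ∈ L) :
    ∃ z : Submonoid.closure {h : H | ∃ p ∈ L, p.1 = h}, (z : H) = (u.map Prod.fst).prod ∧
      Φ z = (u.map Prod.snd).prod := by
  induction u with
  | nil => exact ⟨1, by simp, by simp⟩
  | cons p u ih =>
    obtain ⟨z, hz1, hz2⟩ := ih fun q hq => hu q (List.mem_cons_of_mem _ hq)
    have hp : p ∈ L := hu p List.mem_cons_self
    refine ⟨⟨p.1, Submonoid.subset_closure ⟨p, hp, rfl⟩⟩ * z, ?_, ?_⟩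
    · rw [List.map_cons, List.prod_cons, ← hz1]
      rfl
    · rw [map_mul, hΦ p hp, hz2, List.map_cons, List.prod_cons]

theorem t_HOM : S_HOM := by
  intro H G _ _ L
  constructor
  · rintro ⟨Φ, hΦ⟩ u v hu hv huv
    obtain ⟨z, hz1, hz2⟩ := value L Φ hΦ u hu
    obtain ⟨z', hz1', hz2'⟩ := value L Φ hΦ v hv
    have e : z = z' := Subtype.ext (by rw [hz1, hz1', huv])
    rw [← hz2, ← hz2', e]
  · intro h
    choose U hU1 hU2 using exists_list L
    refine ⟨{ toFun := fun z => ((U z).map Prod.snd).prod, map_one' := ?_, map_mul' := ?_ }, ?_⟩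
    · exact h (U 1) [] (hU1 1) (by simp) (by rw [hU2]; simp)
    · intro x y
      rw [← List.prod_append, ← List.map_append]
      refine h _ _ (hU1 _) ?_ ?_
      · intro p hp
        rcases List.mem_append.1 hp with h' | h'
        · exact hU1 _ p h'
        · exact hU1 _ p h'
      · rw [List.map_append, List.prod_append, hU2, hU2, hU2]
        rfl
    · intro p hp
      change ((U _).map Prod.snd).prod = p.2
      have := h (U ⟨p.1, Submonoid.subset_closure ⟨p, hp, rfl⟩⟩) [p] (hU1 _) (by simpa using hp)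
        (by rw [hU2]; simp)
      rw [this]
      simp

end Pool.Agent.Q178.HM
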